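import Pool.Agent.helper52.FS.SpecP

/-!
# Row fs:PLR (MP_07c750_an): Plancherel
-/

set_option autoImplicit false

open MeasureTheory Set

namespace Pool.Agent.FS

open scoped FourierTransform SchwartzMap ContDiff in
/-- the `L²` Fourier transform is the integral -/
private theorem PLR_ae (h : ℝ → ℂ) (h1 : Integrable h) (h2 : MemLp h 2) :
    ((𝓕 (h2.toLp h) : Lp ℂ 2 (volume : Measure ℝ)) : ℝ → ℂ) =ᵐ[volume] 𝓕 h := by
  have hc : Continuous (𝓕 h) := VectorFourier.fourierIntegral_continuous Real.continuous_fourierChar continuous_inner h1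
  apply ae_eq_of_integral_contDiff_smul_eq
  · exact (Lp.memLp _).locallyIntegrable (by norm_num)
  · exact hc.locallyIntegrable
  · intro g hg hgc
    have hg₁ : HasCompactSupport (Complex.ofRealCLM ∘ g) := hgc.comp_left rfl
    have hg₂ : ContDiff ℝ ∞ (Complex.ofRealCLM ∘ g) := by fun_prop
    set φ : 𝓢(ℝ, ℂ) := hg₁.toSchwartzMap hg₂ with hφ
    have e0 : ∀ x, φ x = ((g x : ℝ) : ℂ) := fun x => rfl
    have e1 : ∫ x, g x • ((𝓕 (h2.toLp h) : Lp ℂ 2 (volume : Measure ℝ)) : ℝ → ℂ) x =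
        Lp.toTemperedDistribution (𝓕 (h2.toLp h) : Lp ℂ 2 (volume : Measure ℝ)) φ := by
      rw [Lp.toTemperedDistribution_apply]
      apply integral_congr_ae
      refine Filter.Eventually.of_forall fun x => ?_
      show g x • _ = φ x • _
      rw [e0, Complex.coe_smul]
    have e2 : Lp.toTemperedDistribution (𝓕 (h2.toLp h) : Lp ℂ 2 (volume : Measure ℝ)) φ =
        Lp.toTemperedDistribution (h2.toLp h) (𝓕 φ) := by
      rw [← Lp.fourier_toTemperedDistribution_eq]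
      rfl
    have e3 : Lp.toTemperedDistribution (h2.toLp h) (𝓕 φ) = ∫ x, (𝓕 φ) x • h x := by
      rw [Lp.toTemperedDistribution_apply]
      apply integral_congr_ae
      filter_upwards [h2.coeFn_toLp] with x hx
      rw [hx]
    have e4 : ∫ x, (𝓕 φ) x • h x = ∫ x, φ x • (𝓕 h) x := by
      rw [SchwartzMap.fourier_coe]
      have h3 := VectorFourier.integral_fourierIntegral_smul_eq_flip (μ := volume) (ν := volume) (L := innerₗ ℝ)
        Real.continuous_fourierChar continuous_inner φ.integrable h1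
      have h4 : (innerₗ ℝ : ℝ →ₗ[ℝ] ℝ →ₗ[ℝ] ℝ).flip = innerₗ ℝ := by
        ext
        simp
      rw [h4] at h3
      exact h3
    rw [e1, e2, e3, e4]
    apply integral_congr_ae
    refine Filter.Eventually.of_forall fun x => ?_
    show φ x • _ = g x • _
    rw [e0, Complex.coe_smul]

private theorem PLR_l2 (f : Lp ℂ 2 (volume : Measure ℝ)) : ‖f‖ ^ 2 = ∫ x, ‖f x‖ ^ 2 := by
  have h1 : (inner ℂ f f : ℂ) = ((‖f‖ ^ 2 : ℝ) : ℂ) := by
    rw [inner_self_eq_norm_sq_to_K]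
    push_cast
    rfl
  rw [L2.inner_def] at h1
  have h2 : ∀ x, (inner ℂ (f x) (f x) : ℂ) = ((‖f x‖ ^ 2 : ℝ) : ℂ) := by
    intro x
    rw [inner_self_eq_norm_sq_to_K]
    push_cast
    rfl
  simp_rw [h2] at h1
  rw [integral_complex_ofReal] at h1
  exact (Complex.ofReal_injective h1).symm

open scoped FourierTransform in
private theorem PLR_main (h : ℝ → ℂ) (h1 : Integrable h) (h2 : MemLp h 2) :
    Integrable (fun x => ‖(𝓕 h) x‖ ^ 2) ∧ ∫ x, ‖(𝓕 h) x‖ ^ 2 = ∫ x, ‖h x‖ ^ 2 := by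
  have hae := PLR_ae h h1 h2
  have hm : MemLp (𝓕 h) 2 := (Lp.memLp (𝓕 (h2.toLp h) : Lp ℂ 2 (volume : Measure ℝ))).ae_eq hae
  refine ⟨hm.integrable_norm_pow (by norm_num), ?_⟩
  have e1 : ∫ x, ‖(𝓕 h) x‖ ^ 2 = ∫ x, ‖((𝓕 (h2.toLp h) : Lp ℂ 2 (volume : Measure ℝ)) : ℝ → ℂ) x‖ ^ 2 := by
    apply integral_congr_ae
    filter_upwards [hae] with x hx
    rw [hx]
  have e2 : ∫ x, ‖h x‖ ^ 2 = ∫ x, ‖(h2.toLp h : ℝ → ℂ) x‖ ^ 2 := by
    apply integral_congr_ae
    filter_upwards [h2.coeFn_toLp] with x hx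
    rw [hx]
  rw [e1, e2, ← PLR_l2, ← PLR_l2, Lp.norm_fourier_eq]

open scoped FourierTransform in
theorem PLR_proof : PLR_stmt := by
  intro h M h1 hM
  have h2 : MemLp h 2 := by
    rw [memLp_two_iff_integrable_sq_norm h1.aestronglyMeasurable]
    refine (h1.norm.const_mul M).mono' (h1.norm.aestronglyMeasurable.pow 2) (Filter.Eventually.of_forall fun y => ?_)
    rw [norm_pow, norm_norm, pow_two]
    exact mul_le_mul_of_nonneg_right (hM y) (norm_nonneg _)
  obtain ⟨m1, m2⟩ := PLR_main h h1 h2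
  have hpi : (0 : ℝ) < Real.pi := Real.pi_pos
  have hFT : ∀ u : ℝ, ∫ v, ee (u * v) * h v = (𝓕 h) (-(2 * Real.pi)⁻¹ * u) := by
    intro u
    rw [Real.fourier_real_eq_integral_exp_smul]
    apply integral_congr_ae
    refine Filter.Eventually.of_forall fun y => ?_
    show ee (u * y) * h y = _ • h y
    unfold ee
    rw [smul_eq_mul]
    congr 2
    congr 1
    rw [Complex.ofReal_inj]
    field_simp
  refine ⟨?_, ?_⟩
  · simp only [hFT]
    exact m1.comp_mul_left' (R := -(2 * Real.pi)⁻¹) (by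
      rw [neg_ne_zero]
      positivity)
  · simp only [hFT]
    have h3 := Measure.integral_comp_mul_left (fun x => ‖(𝓕 h) x‖ ^ 2) (-(2 * Real.pi)⁻¹)
    rw [h3, smul_eq_mul, inv_neg, inv_inv, abs_neg, abs_of_pos (by positivity), m2]

end Pool.Agent.FS
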